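import Mathlib

set_option autoImplicit false

namespace Pool.Agent.Results.MP_98cb65_gt.PeanoContinuum

open Set Topology Filter

/-- A self-map `T` of a metric space has iterate displacement below `B` when all its iterates
`T^ν`, `ν ≥ 1`, move every point by less than `B`. -/
def IterDispBelow (X : Type) [MetricSpace X] (B : ℝ) (T : X → X) : Prop :=
  ∀ x : X, ∀ ν : ℕ, 1 ≤ ν → dist (T^[ν] x) x < B

/-- Property (F): there is `B > 0` such that every continuous self-map of `X` with iterate
displacement below `B` has a fixed point. -/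
def PropertyF (X : Type) [MetricSpace X] : Prop :=
  ∃ B : ℝ, 0 < B ∧ ∀ T : X → X, Continuous T → IterDispBelow X B T → ∃ x : X, T x = x

theorem circle_lpc : LocallyPathConnectedSpace (AddCircle (1 : ℝ)) := by
  have h := QuotientAddGroup.isQuotientMap_mk (AddSubgroup.zmultiples (1:ℝ))
  have h2 : LocallyPathConnectedSpace (ℝ ⧸ (AddSubgroup.zmultiples (1:ℝ))) :=
    h.locallyPathConnectedSpace
  exact h2

theorem torus_lc : LocallyConnectedSpace (ℕ → AddCircle (1 : ℝ)) := by
  have := circle_lpc
  have h : LocallyPathConnectedSpace (ℕ → AddCircle (1 : ℝ)) := Pi.locallyPathConnectedSpace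
  infer_instance

/-- rotation of the `i`-th coordinate by a half turn -/
noncomputable def rot (i : ℕ) (x : ℕ → AddCircle (1 : ℝ)) : ℕ → AddCircle (1 : ℝ) :=
  Function.update x i (x i + ((1 / 2 : ℝ) : AddCircle (1 : ℝ)))

theorem half_add_half :
    ((1 / 2 : ℝ) : AddCircle (1 : ℝ)) + ((1 / 2 : ℝ) : AddCircle (1 : ℝ)) = 0 := by
  rw [← AddCircle.coe_add, AddCircle.coe_eq_zero_iff]
  exact ⟨1, by norm_num⟩

theorem half_ne_zero : ((1 / 2 : ℝ) : AddCircle (1 : ℝ)) ≠ 0 := by
  intro h
  rw [AddCircle.coe_eq_zero_iff] at h
  obtain ⟨n, hn⟩ := h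
  simp only [zsmul_eq_mul, mul_one] at hn
  have h2 : (2 * n : ℝ) = 1 := by rw [hn]; norm_num
  have h3 : (2 * n : ℤ) = 1 := by exact_mod_cast h2
  omega

theorem rot_rot (i : ℕ) (x : ℕ → AddCircle (1 : ℝ)) : rot i (rot i x) = x := by
  unfold rot
  simp only [Function.update_self, Function.update_idem, add_assoc, half_add_half, add_zero,
    Function.update_eq_self]

theorem rot_ne (i : ℕ) (x : ℕ → AddCircle (1 : ℝ)) : rot i x ≠ x := by
  intro h
  have := congrFun h i
  simp only [rot, Function.update_self] at this
  exact half_ne_zero (by simpa using this)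

theorem rot_continuous (i : ℕ) : Continuous (rot i) := by
  unfold rot
  exact continuous_id.update i ((continuous_apply i).add continuous_const)

/-- **Negative answer to Q2.** Not every locally connected continuum (compact connected locally
connected metric space) has property (F). -/
theorem result :
    ¬ ∀ (X : Type) [MetricSpace X] [CompactSpace X] [ConnectedSpace X]
      [LocallyConnectedSpace X], PropertyF X := by
  intro H
  let _ : MetricSpace (ℕ → AddCircle (1 : ℝ)) := PiCountable.metricSpace
  have _ : LocallyConnectedSpace (ℕ → AddCircle (1 : ℝ)) := torus_lc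
  obtain ⟨B, hB, hF⟩ := H (ℕ → AddCircle (1 : ℝ))
  obtain ⟨i, hi⟩ := exists_pow_lt_of_lt_one hB (show (2⁻¹ : ℝ) < 1 by norm_num)
  obtain ⟨x, hx⟩ := hF (rot i) (rot_continuous i) (by
    intro x ν _
    have hcases : (rot i)^[ν] x = x ∨ (rot i)^[ν] x = rot i x := by
      clear * -
      induction ν with
      | zero => left; rfl
      | succ n ih =>
        rw [Function.iterate_succ_apply']
        rcases ih with h | h
        · right; rw [h]
        · left; rw [h, rot_rot]
    rcases hcases with h | h
    · rw [h, dist_self]; exact hB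
    · rw [h]
      refine lt_of_le_of_lt ?_ hi
      have h0 : ∀ j, j ≠ i →
          min ((2⁻¹ : ℝ) ^ Encodable.encode j) (dist (rot i x j) (x j)) = 0 := by
        intro j hj
        simp only [rot, Function.update_of_ne hj, dist_self]
        exact min_eq_right (by positivity)
      have h1 : dist (rot i x) x = ∑' j, min ((2⁻¹ : ℝ) ^ Encodable.encode j)
          (dist (rot i x j) (x j)) := PiCountable.dist_eq_tsum _ _
      rw [h1, tsum_eq_single i h0]
      exact min_le_left _ _)
  exact rot_ne i x hx

end Pool.Agent.Results.MP_98cb65_gt.PeanoContinuum
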